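import Mathlib
import Pool.Agent.Lib_MP_6575fe_co.Final

namespace Pool.Agent.Results.MP_6575fe_co.VanishingClassification

/-- The number of `k`-subsets `B` of the finite field `F` whose stabilizer in `AGL(1,F)` is exactly
`S_{d,H} = {x ↦ u x + h : u ^ d = 1, h ∈ H}`: for all `a ≠ 0` and all `b`, the map `x ↦ a x + b`
maps `B` onto `B` if and only if `a ^ d = 1` and `b ∈ H`. -/
noncomputable def exactStabCount (F : Type*) [Field F] (d : ℕ) (H : AddSubgroup F) (k : ℕ) : ℕ :=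
  {B : Set F | B.ncard = k ∧ ∀ a b : F, a ≠ 0 →
    ((fun x => a * x + b) '' B = B ↔ a ^ d = 1 ∧ b ∈ H)}.ncard

/-- Complete determination of the parameters `(q, d, H, k)` (with `d ∣ q - 1`, `μ_d H = H`,
`3 ≤ k ≤ q / 2`, and `k ≡ 0` or `|H|` modulo `d |H|`) for which `𝒩(S_{d,H}, k) = 0`. -/
theorem result (F : Type*) [Field F] [Finite F] (p : ℕ) [CharP F p] (d : ℕ) (H : AddSubgroup F)
    (k : ℕ) (hd : d ∣ Nat.card F - 1)
    (hH : ∀ u : F, u ^ d = 1 → ∀ h ∈ H, u * h ∈ H)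
    (hk : 3 ≤ k) (hkq : 2 * k ≤ Nat.card F)
    (hmod : k ≡ 0 [MOD d * Nat.card H] ∨ k ≡ Nat.card H [MOD d * Nat.card H]) :
    exactStabCount F d H k = 0 ↔
      ((k = Nat.card H ∧ ∃ u : F, u ≠ 0 ∧ u ^ d ≠ 1 ∧ ∀ h ∈ H, u * h ∈ H) ∨
       (k = (d + 1) * Nat.card H ∧ ∃ m : ℕ, d + 1 = p ^ m) ∨
       (d = 1 ∧ k = 2 * Nat.card H) ∨
       (d = 1 ∧ Nat.card F = 7 * Nat.card H ∧ k = 3 * Nat.card H)) := by
  classical
  have := Fintype.ofFinite F
  have key := Pool.Agent.Lib_MP_6575fe_co.main_finset p d H k hd hH hk hkq hmod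
  unfold exactStabCount
  rw [Set.ncard_eq_zero (Set.toFinite _), Set.eq_empty_iff_forall_notMem]
  constructor
  · intro h
    by_contra hne
    obtain ⟨B, hB, hE⟩ := key.2 hne
    exact h (B : Set F) ⟨by rw [Set.ncard_coe_finset, hB], hE⟩
  · rintro hex B ⟨hB, hE⟩
    refine key.1 ⟨B.toFinset, ?_, ?_⟩ hex
    · rw [← Set.ncard_eq_toFinset_card']; exact hB
    · intro a b ha
      rw [Set.coe_toFinset]
      exact hE a b ha

end Pool.Agent.Results.MP_6575fe_co.VanishingClassification
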